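import Pool.Agent.Lib.H25U.C4
import Pool.Agent.Lib.H25U.A1c
import Pool.Agent.Lib.H76Q.B1
import Pool.Agent.Lib.H76Q.B2

/-!
# A square zero element whose support is stable fixes a block
-/

set_option autoImplicit false
set_option linter.unusedSectionVars false
namespace Pool.Agent.H76W
open Module Matrix Pool.Agent.H53Toric
open Pool.Agent.H25U
open Pool.Agent.H76P hiding Hs Yo pt pt_apply wc IsWt
open Pool.Agent.H76Q
open Pool.Agent.H76T (IsIdeal Fam)

variable {κ : Type*} {K : Type*} [Field K] [CharZero K] [IsAlgClosed K] [Fintype κ] [DecidableEq κ] [Nonempty κ]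
  {L : Submodule K (Module.End K (κ → K))} {Y : Submodule ℚ (κ → ℚ)}

theorem fix_supp (h : TM L) (hY : Yo L = Y)
    {FF : Finset (Module.End ℚ Y)} (hFF : ∀ P ∈ FF, Sp P ∧ Comp L P)
    (horth : ∀ P ∈ FF, ∀ P' ∈ FF, P ≠ P' → P * P' = 0) (hsum : ∑ P ∈ FF, P = 1)
    {X : Module.End K (κ → K)} (hX : X ∈ L) (hX0 : X ≠ 0) (hXX : X * X = 0) {σ : Equiv.Perm κ}
    (hsup : (∀ k l, LinearMap.toMatrix' X k l ≠ 0 ↔ LinearMap.toMatrix' X (σ k) (σ l) ≠ 0) ∨
      ∀ k l, LinearMap.toMatrix' X k l ≠ 0 ↔ LinearMap.toMatrix' X (σ l) (σ k) ≠ 0)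
    (g : Module.End ℚ Y → Module.End ℚ Y) (hg : ∀ P ∈ FF, g P ∈ FF ∧ MvP σ P (g P)) :
    ∃ P ∈ FF, g P = P := by
  classical
  obtain ⟨m, I, hF⟩ := H76T.exists_fam h.cmp.lie h.cmp.irr h.cmp.tr
  obtain ⟨j, hj⟩ := hF.one h.cmp.irr h.cmp.tr hX hX0 (a := 0) (b := 0) (by rw [hXX, zero_smul, zero_smul, add_zero, add_zero])
  obtain ⟨f₀, hf₀Y, hf₀, hf₀I⟩ := h.exists_diag hF j
  rw [hY] at hf₀Y
  have hs : ∀ f ∈ Y, ∑ k, f k = 0 := fun f hf => Yo_sum h.cmp (hY ▸ hf)
  have hex : ∃ P ∈ FF, InP P (I j) := by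
    by_contra hcon
    push Not at hcon
    have h1 : ∀ P ∈ FF, P ⟨f₀, hf₀Y⟩ = 0 := by
      intro P hP
      rcases (hFF P hP).2 m I hF j with h2 | h2
      · exact absurd h2 (hcon P hP)
      · have h3 := (FunP_iff (hFF P hP).1.compl hs ⟨f₀, hf₀Y⟩).1 (h2 f₀ hf₀Y hf₀I)
        rw [LinearMap.sub_apply, Module.End.one_apply, sub_eq_self] at h3
        exact h3
    have h2 : (⟨f₀, hf₀Y⟩ : Y) = 0 := by
      have h3 : (∑ P ∈ FF, P) (⟨f₀, hf₀Y⟩ : Y) = ⟨f₀, hf₀Y⟩ := by rw [hsum, Module.End.one_apply]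
      rw [← h3, LinearMap.sum_apply]
      exact Finset.sum_eq_zero h1
    exact hf₀ (congrArg Subtype.val h2)
  obtain ⟨P, hP, hPI⟩ := hex
  have hXP : X ∈ AZ L P := Algebra.subset_adjoin ⟨I j, hF.ideal j, hPI, hj⟩
  have hent : ∀ k l, LinearMap.toMatrix' X k l ≠ 0 → cz (1 - P) k l := by
    intro k l hkl
    refine entry_cz h hY (hFF P hP).1.compl (hFF P hP).2.compl (B := X) ?_ hkl
    rw [c4_compl2]
    exact hXP
  have hoff : ∃ k l, k ≠ l ∧ LinearMap.toMatrix' X k l ≠ 0 := by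
    by_contra hcon
    push Not at hcon
    apply hX0
    have h1 : LinearMap.toMatrix' X * LinearMap.toMatrix' X = 0 := by
      rw [← LinearMap.toMatrix'_mul, hXX, map_zero]
    have h2 : LinearMap.toMatrix' X = 0 := by
      ext k l
      by_cases hkl : k = l
      · subst hkl
        have h3 := congrFun (congrFun h1 k) k
        rw [Matrix.mul_apply, Finset.sum_eq_single k] at h3
        · exact mul_self_eq_zero.1 h3
        · intro l _ hl
          rw [hcon k l (Ne.symm hl), zero_mul]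
        · intro h4; exact absurd (Finset.mem_univ _) h4
      · exact hcon k l hkl
    exact (LinearMap.toMatrix' (R := K) (m := κ) (n := κ)).injective (by rw [h2, map_zero])
  obtain ⟨k, l, hkl, hne⟩ := hoff
  refine ⟨P, hP, ?_⟩
  by_contra hgP
  have h1 : cz (1 - P) k l := hent k l hne
  have h2 : cz (1 - g P) k l := by
    rcases hsup with hs1 | hs1
    · have h3 : LinearMap.toMatrix' X (σ.symm k) (σ.symm l) ≠ 0 := by
        rw [hs1, Equiv.apply_symm_apply, Equiv.apply_symm_apply]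
        exact hne
      have h4 := ((hg P hP).2.2 _ _).1 (hent _ _ h3)
      rwa [Equiv.apply_symm_apply, Equiv.apply_symm_apply] at h4
    · have h3 : LinearMap.toMatrix' X (σ.symm l) (σ.symm k) ≠ 0 := by
        rw [hs1, Equiv.apply_symm_apply, Equiv.apply_symm_apply]
        exact hne
      have h4 := ((hg P hP).2.2 _ _).1 (hent _ _ h3)
      rw [Equiv.apply_symm_apply, Equiv.apply_symm_apply] at h4
      exact fun f => (h4 f).symm
  have hor := horth (g P) (hg P hP).1 P hP hgP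
  have h5 : ∀ f : Y, (f : κ → ℚ) k = (f : κ → ℚ) l := by
    intro f
    have h6 := h1 f
    have h7 := h2 (P f)
    have h8 : (1 - g P) (P f) = P f := by
      have h9 := congrArg (fun T : Module.End ℚ Y => T f) hor
      simp only [Module.End.mul_apply, LinearMap.zero_apply] at h9
      rw [LinearMap.sub_apply, Module.End.one_apply, h9, sub_zero]
    rw [h8] at h7
    have h10 : ∀ c, (f : κ → ℚ) c = (P f : κ → ℚ) c + ((1 - P) f : κ → ℚ) c := by
      intro c
      rw [LinearMap.sub_apply, Module.End.one_apply]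
      show _ = _ + ((f : κ → ℚ) c - (P f : κ → ℚ) c)
      ring
    rw [h10, h10, h6, h7]
  obtain ⟨f, hf, hfne⟩ := h.sep k l hkl
  exact hfne (h5 ⟨f, hY ▸ hf⟩)

end Pool.Agent.H76W
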