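import Pool.Agent.Lib.H76P.G0
import Pool.Agent.Lib.H76Q.E3

/-!
# The support of the matrix of a rational element in a component, under an automorphism
-/

set_option autoImplicit false
set_option linter.unusedSectionVars false
namespace Pool.Agent.H76W
open Module Matrix Pool.Agent.H53Toric Pool.Agent.H76P Pool.Agent.H76Q

variable {ι : Type*} [Fintype ι] [DecidableEq ι] {K : Type*} [Field K]
  {J e e' x N : Matrix ι ι K} {n : ℕ}
  {U : Matrix ι (Fin n) K} {V : Matrix (Fin n) ι K} {d : Fin n → K} {t : K ≃+* K} {a a' : Matrix ι ι K}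
  {π : Equiv.Perm (Fin n)} {q : K}

theorem supp_map {m₁ m₂ m₃ : Type*} [Fintype m₂] (A : Matrix m₁ m₂ K) (B : Matrix m₂ m₃ K) (t : K ≃+* K) :
    (A * B).map t = A.map t * B.map t := by
  ext i j
  simp [Matrix.mul_apply, map_sum]

theorem supp_NU (hUV : e = U * V) (hVU : V * U = 1) (heN : e * N = N * e) : N * U = U * (V * N * U) := by
  calc N * U = N * (U * V) * U := by rw [Matrix.mul_assoc N, Matrix.mul_assoc U, hVU, Matrix.mul_one]
    _ = U * V * N * U := by rw [← hUV, ← heN]
    _ = _ := by simp only [Matrix.mul_assoc]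

theorem supp_diag (hex : x * U = U * Matrix.diagonal d) (hx : x.map t = x) :
    x * U.map t = U.map t * Matrix.diagonal (fun k => t (d k)) := by
  have h1 := congrArg (fun M : Matrix ι (Fin n) K => M.map t) hex
  beta_reduce at h1
  rw [supp_map, supp_map, hx] at h1
  rw [h1]
  congr 1
  ext i j
  rw [Matrix.map_apply, Matrix.diagonal_apply, Matrix.diagonal_apply]
  split_ifs
  · rfl
  · exact map_zero t

/-- The linked case. -/
theorem supp_link (hUV : e = U * V) (hVU : V * U = 1) (hec : EC x U d) (heN : e * N = N * e)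
    (h1 : a * a' = e.map t) (h3 : e * a' = a')
    (hxa : x * a' = a' * x) (hNa : N * a' = a' * N) (hx : x.map t = x) (hN : N.map t = N)
    (hd : ∀ k, t (d k) = d (π k)) (k l : Fin n) :
    (V * N * U) k l ≠ 0 ↔ (V * N * U) (π k) (π l) ≠ 0 := by
  have hVUt : V.map t * U.map t = 1 := by
    rw [← supp_map, hVU]
    ext i j
    rw [Matrix.map_apply, Matrix.one_apply]
    split_ifs
    · exact map_one t
    · exact map_zero t
  have hUVt : U.map t * V.map t = e.map t := by rw [← supp_map, ← hUV]
  obtain ⟨W, hW⟩ : ∃ W, W = a' * U.map t := ⟨_, rfl⟩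
  obtain ⟨C, hC⟩ : ∃ C, C = V * W := ⟨_, rfl⟩
  have hUC : U * C = W := by
    rw [hC, ← Matrix.mul_assoc, ← hUV, hW, ← Matrix.mul_assoc, h3]
  have hxW : x * W = W * Matrix.diagonal (fun k => t (d k)) := by
    rw [hW, ← Matrix.mul_assoc, hxa, Matrix.mul_assoc, supp_diag hec.eig hx, ← Matrix.mul_assoc]
  have hNW : N * W = W * (V * N * U).map t := by
    rw [hW, ← Matrix.mul_assoc, hNa, Matrix.mul_assoc, Matrix.mul_assoc]
    congr 1
    have h5 := congrArg (fun M : Matrix ι (Fin n) K => M.map t) (supp_NU hUV hVU heN)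
    beta_reduce at h5
    rwa [supp_map, supp_map, hN] at h5
  have hC1 : Matrix.diagonal d * C = C * Matrix.diagonal (fun k => t (d k)) := by
    have h5 : U * (Matrix.diagonal d * C) = U * (C * Matrix.diagonal (fun k => t (d k))) := by
      rw [← Matrix.mul_assoc, ← hec.eig, Matrix.mul_assoc, hUC, hxW, ← Matrix.mul_assoc, hUC]
    have h6 := congrArg (fun M => V * M) h5
    beta_reduce at h6
    rwa [← Matrix.mul_assoc, hVU, Matrix.one_mul, ← Matrix.mul_assoc, hVU, Matrix.one_mul] at h6
  have hC2 : (V * N * U) * C = C * (V * N * U).map t := by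
    have h5 : U * ((V * N * U) * C) = U * (C * (V * N * U).map t) := by
      rw [← Matrix.mul_assoc, ← supp_NU hUV hVU heN, Matrix.mul_assoc, hUC, hNW, ← Matrix.mul_assoc, hUC]
    have h6 := congrArg (fun M => V * M) h5
    beta_reduce at h6
    rwa [← Matrix.mul_assoc, hVU, Matrix.one_mul, ← Matrix.mul_assoc, hVU, Matrix.one_mul] at h6
  have hCz : ∀ l k, l ≠ π k → C l k = 0 := by
    intro l k hlk
    by_contra hne
    have h5 := congrFun (congrFun hC1 l) k
    rw [Matrix.diagonal_mul, Matrix.mul_diagonal, mul_comm (C l k), hd] at h5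
    exact hlk (hec.inj (mul_right_cancel₀ hne h5))
  have hCne : ∀ k, C (π k) k ≠ 0 := by
    intro k h5
    have h6 : ∀ l, C l k = 0 := by
      intro l
      by_cases hl : l = π k
      · rw [hl]; exact h5
      · exact hCz l k hl
    have h7 : (V.map t * a * U) * C = 1 := by
      rw [Matrix.mul_assoc, hUC, hW, Matrix.mul_assoc, ← Matrix.mul_assoc a, h1, ← hUVt, Matrix.mul_assoc (U.map t),
        hVUt, Matrix.mul_one, hVUt]
    have h8 := congrFun (congrFun h7 k) k
    rw [Matrix.mul_apply, Matrix.one_apply_eq, Finset.sum_eq_zero (fun l _ => by rw [h6 l, mul_zero])] at h8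
    exact zero_ne_one h8
  have key : (V * N * U) (π k) (π l) * C (π l) l = C (π k) k * t ((V * N * U) k l) := by
    have h5 := congrFun (congrFun hC2 (π k)) l
    rw [Matrix.mul_apply, Matrix.mul_apply, Finset.sum_eq_single (π l), Finset.sum_eq_single k] at h5
    · exact h5
    · intro m _ hm
      rw [hCz (π k) m (fun h => hm (π.injective h).symm), zero_mul]
    · intro h; exact absurd (Finset.mem_univ _) h
    · intro m _ hm
      rw [hCz m l hm, mul_zero]
    · intro h; exact absurd (Finset.mem_univ _) h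
  constructor
  · intro h h0
    rw [h0, zero_mul] at key
    rcases mul_eq_zero.1 key.symm with h5 | h5
    · exact hCne k h5
    · exact h ((map_eq_zero t).1 h5)
  · intro h h0
    rw [h0, map_zero, mul_zero] at key
    rcases mul_eq_zero.1 key with h5 | h5
    · exact h h5
    · exact hCne l h5

/-- The dual case. -/
theorem supp_dual (hUV : e = U * V) (hVU : V * U = 1) (hec : EC x U d) (heN : e * N = N * e)
    (h1 : a * a' = e.map t) (h3 : e' * a' = a')
    (hxa : x * a' = a' * x) (hNa : N * a' = a' * N) (hx : x.map t = x) (hN : N.map t = N)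
    (hJe : e'ᵀ * J = J * e) (hJ : IsUnit J.det) (hxJ : xᵀ * J * x = q • J) (hNJ : Nᵀ * J = -(J * N))
    (hq : q ≠ 0) (hd : ∀ k, t (d k) * d (π k) = q) (k l : Fin n) :
    (V * N * U) k l ≠ 0 ↔ (V * N * U) (π l) (π k) ≠ 0 := by
  have hVUt : V.map t * U.map t = 1 := by
    rw [← supp_map, hVU]
    ext i j
    rw [Matrix.map_apply, Matrix.one_apply]
    split_ifs
    · exact map_one t
    · exact map_zero t
  have hUVt : U.map t * V.map t = e.map t := by rw [← supp_map, ← hUV]
  obtain ⟨W, hW⟩ : ∃ W, W = a' * U.map t := ⟨_, rfl⟩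
  obtain ⟨M, hM⟩ : ∃ M, M = Wᵀ * J * U := ⟨_, rfl⟩
  have heW : e' * W = W := by rw [hW, ← Matrix.mul_assoc, h3]
  have hxW : x * W = W * Matrix.diagonal (fun k => t (d k)) := by
    rw [hW, ← Matrix.mul_assoc, hxa, Matrix.mul_assoc, supp_diag hec.eig hx, ← Matrix.mul_assoc]
  have hNW : N * W = W * (V * N * U).map t := by
    rw [hW, ← Matrix.mul_assoc, hNa, Matrix.mul_assoc, Matrix.mul_assoc]
    congr 1
    have h5 := congrArg (fun M : Matrix ι (Fin n) K => M.map t) (supp_NU hUV hVU heN)
    beta_reduce at h5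
    rwa [supp_map, supp_map, hN] at h5
  have hM1 : Matrix.diagonal (fun k => t (d k)) * M * Matrix.diagonal d = q • M := by
    calc Matrix.diagonal (fun k => t (d k)) * M * Matrix.diagonal d =
        (W * Matrix.diagonal (fun k => t (d k)))ᵀ * J * (U * Matrix.diagonal d) := by
          rw [hM, Matrix.transpose_mul, Matrix.diagonal_transpose]
          simp only [Matrix.mul_assoc]
      _ = Wᵀ * (xᵀ * J * x) * U := by
          rw [← hxW, ← hec.eig, Matrix.transpose_mul]
          simp only [Matrix.mul_assoc]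
      _ = q • M := by
          rw [hxJ, hM, Matrix.mul_smul, Matrix.smul_mul]
  have hM2 : ((V * N * U).map t)ᵀ * M = -(M * (V * N * U)) := by
    calc ((V * N * U).map t)ᵀ * M = (N * W)ᵀ * J * U := by
          rw [hNW, Matrix.transpose_mul, hM]
          simp only [Matrix.mul_assoc]
      _ = Wᵀ * (Nᵀ * J) * U := by
          rw [Matrix.transpose_mul]
          simp only [Matrix.mul_assoc]
      _ = -(Wᵀ * J * (N * U)) := by
          rw [hNJ]
          simp only [Matrix.mul_neg, Matrix.neg_mul, Matrix.mul_assoc]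
      _ = _ := by
          rw [supp_NU hUV hVU heN, hM]
          simp only [Matrix.mul_assoc]
  have hMz : ∀ k l, l ≠ π k → M k l = 0 := by
    intro k l hlk
    by_contra hne
    have h5 := congrFun (congrFun hM1 k) l
    rw [Matrix.mul_diagonal, Matrix.diagonal_mul, Matrix.smul_apply, smul_eq_mul, mul_right_comm] at h5
    have h6 := mul_right_cancel₀ hne h5
    rw [← hd k] at h6
    have h7 : t (d k) ≠ 0 := by
      intro h0
      apply hq
      rw [← hd k, h0, zero_mul]
    exact hlk (hec.inj (mul_left_cancel₀ h7 h6))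
  have hMne : ∀ k, M k (π k) ≠ 0 := by
    intro k h5
    have h6 : ∀ l, M k l = 0 := by
      intro l
      by_cases hl : l = π k
      · rw [hl]; exact h5
      · exact hMz k l hl
    have h7 : Wᵀ * J = M * V := by
      calc Wᵀ * J = (e' * W)ᵀ * J := by rw [heW]
        _ = Wᵀ * (e'ᵀ * J) := by rw [Matrix.transpose_mul, Matrix.mul_assoc]
        _ = Wᵀ * J * (U * V) := by rw [hJe, hUV, Matrix.mul_assoc]
        _ = _ := by rw [hM]; simp only [Matrix.mul_assoc]
    have h8 : Wᵀ = M * V * J⁻¹ := by
      rw [← h7, Matrix.mul_assoc, Matrix.mul_nonsing_inv _ hJ, Matrix.mul_one]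
    have h9 : ∀ i, W i k = 0 := by
      intro i
      have h10 : W i k = (M * V * J⁻¹) k i := by rw [← h8, Matrix.transpose_apply]
      rw [h10, Matrix.mul_assoc, Matrix.mul_apply]
      exact Finset.sum_eq_zero fun l _ => by rw [h6 l, zero_mul]
    have h11 : (V.map t * a) * W = 1 := by
      rw [hW, Matrix.mul_assoc, ← Matrix.mul_assoc a, h1, ← hUVt, Matrix.mul_assoc (U.map t), hVUt, Matrix.mul_one, hVUt]
    have h12 := congrFun (congrFun h11 k) k
    rw [Matrix.mul_apply, Matrix.one_apply_eq, Finset.sum_eq_zero (fun i _ => by rw [h9 i, mul_zero])] at h12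
    exact zero_ne_one h12
  have key : t ((V * N * U) k l) * M k (π k) = -(M l (π l) * (V * N * U) (π l) (π k)) := by
    have h5 := congrFun (congrFun hM2 l) (π k)
    rw [Matrix.mul_apply, Matrix.neg_apply, Matrix.mul_apply, Finset.sum_eq_single k, Finset.sum_eq_single (π l)] at h5
    · exact h5
    · intro m _ hm
      rw [hMz l m hm, zero_mul]
    · intro h; exact absurd (Finset.mem_univ _) h
    · intro m _ hm
      rw [hMz m (π k) (fun h => hm (π.injective h).symm), mul_zero]
    · intro h; exact absurd (Finset.mem_univ _) h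
  constructor
  · intro h h0
    rw [h0, mul_zero, neg_zero] at key
    rcases mul_eq_zero.1 key with h5 | h5
    · exact h ((map_eq_zero t).1 h5)
    · exact hMne k h5
  · intro h h0
    rw [h0, map_zero, zero_mul] at key
    rcases mul_eq_zero.1 (neg_eq_zero.1 key.symm) with h5 | h5
    · exact hMne l h5
    · exact h h5

end Pool.Agent.H76W
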