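import Pool.Agent.Lib.H45Q.S5
import Pool.Agent.Lib.H45U.W2

/-!
# one class of Hodge-Tate cocharacters, fifth version
-/

set_option autoImplicit false
set_option linter.unusedSectionVars false
namespace Pool.Agent.H76W
open Module Matrix Polynomial Pool.Agent.H53Toric Pool.Agent.H76P Pool.Agent.H76Q Pool.Agent.H45Q
open Pool.Agent.H76Y (LcN SyL)
open Pool.Agent.H76Z (Cl OrL Splits)
open Pool.Agent.H45U (Core5 LocU PartU ClsU)
open Pool.Agent.H76T (IsIdeal Fam)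
open Pool.Agent.H76V (Cmp)
open Pool.Agent.H76U (cmp preL IsSplitting)
open Pool.Agent.H76RM (spanK similD)

theorem par_one {ι : Type*} [Fintype ι] [DecidableEq ι] {K : Type*} [Field K] [CharZero K]
    {J : Matrix ι ι K} {S 𝓗 : Set (Matrix ι ι K)} {e x : Matrix ι ι K} {n : ℕ}
    {U : Matrix ι (Fin n) K} {V : Matrix (Fin n) ι K} {d : Fin n → K} {Y : Submodule ℚ (Fin n → ℚ)}
    [IsAlgClosed K] (h : LocU J S 𝓗 e x U V d Y) {k : Matrix ι ι K} (hk : k ∈ 𝓗)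
    (hr : 2 * (k * e).rank = n) : phi (cmp U V ((2 : K) • k - 1)) ∈ LcN J S U V := by
  obtain ⟨h1, h2, c, hc⟩ := h.par k hk
  have hcc : (c : K) = 1 := by
    have h3 := h.ts.cmp.tr _ hc
    have h4 : phi (cmp U V k) * phi (cmp U V k) = phi (cmp U V k) := by
      rw [← map_mul, ← Pool.Agent.H76U.cmp_mul h.UV h.VU h2, h1]
    have h5 := trace_idem h4
    have h6 : ((finrank K (LinearMap.range (phi (cmp U V k)))) : K) = ((k * e).rank : K) := by
      rw [← Pool.Agent.H76U.rank_cmp h.UV h.VU h2]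
      rfl
    have hn : (n : K) ≠ 0 := by exact_mod_cast h.pos.ne'
    have h7 : (2 : K) * ((k * e).rank : K) = n := by exact_mod_cast hr
    have h8 : phi (cmp U V ((2 : K) • k - (c : K) • 1)) = (2 : K) • phi (cmp U V k) - (c : K) • 1 := by
      rw [map_sub (cmp U V), map_smul (cmp U V), map_smul (cmp U V), Pool.Agent.H76U.cmp_one h.UV h.VU,
        map_sub (phi (ι := Fin n) (K := K)), map_smul (phi (ι := Fin n) (K := K)),
        map_smul (phi (ι := Fin n) (K := K)), map_one (phi (ι := Fin n) (K := K))]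
    rw [h8, map_sub, map_smul, map_smul, h5, h6, LinearMap.trace_one, Module.finrank_fintype_fun_eq_card,
      Fintype.card_fin, smul_eq_mul, smul_eq_mul, h7, sub_eq_zero] at h3
    exact (mul_right_cancel₀ hn (by rw [one_mul]; exact h3)).symm
  rw [hcc, one_smul] at hc
  exact hc

variable {ι : Type*} [Fintype ι] [DecidableEq ι] {ψ : Matrix ι ι ℚ}
    {D : Subalgebra ℚ (Matrix ι ι ℚ)} {M : Type*} [Field M] [NumberField M]
    {m : ℕ} {cl : Fin m → Cl} {bar : Fin m → Fin m} {e : Fin m → Matrix ι ι M} {u₀ : Matrix ι ι M} {G : Type*} [Group G]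
    {ρ : ∀ (l : ℕ) [Fact l.Prime], G →* Matrix.GeneralLinearGroup ι ℚ_[l]}
    {p : ℕ} [Fact p.Prime] {σ : G} {q : ℚ} {F : Fin m → M[X]}
    {φ μ ν : Matrix ι ι (AlgebraicClosure ℚ_[p])} {v : AlgebraicClosure ℚ_[p] → ℚ}
    {Δ : Set (AlgebraicClosure ℚ_[p] ≃+* AlgebraicClosure ℚ_[p])}
    {Ω : Type*} [Field Ω] [CharZero Ω] [IsAlgClosed Ω] [Algebra.IsAlgebraic ℚ Ω] {j : M →+* Ω}
    {R : Finset Ω} {N : Set ℕ} {hd : Fin m → Ω → ℕ} {ub : Fin m → Prop}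
    (C : Core5 ψ D cl bar e u₀ ρ p σ q F φ μ ν v Δ j R N hd ub)

include C

/-- Local data at any prime. -/
theorem loc_any5 (b : Fin m) {n : ℕ} {a : Fin n → Ω} (ha : Function.Injective a)
    (hroot : ∀ y : Ω, (F b).eval₂ j y = 0 ↔ ∃ k, y = a k)
    (l : ℕ) [hl : Fact l.Prime] (i : Ω →+* AlgebraicClosure ℚ_[l]) :
    ∃ (H₀ : Subgroup G) (U : Matrix ι (Fin n) (AlgebraicClosure ℚ_[l]))
      (V : Matrix (Fin n) ι (AlgebraicClosure ℚ_[l])) (x : Matrix ι ι (AlgebraicClosure ℚ_[l])), H₀.FiniteIndex ∧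
      LocU (ψ.map (algebraMap ℚ (AlgebraicClosure ℚ_[l]))) (img (AlgebraicClosure ℚ_[l]) (ρ l) H₀)
        (properProj (AlgebraicClosure ℚ_[l]) (ρ l)) ((e b).map (i.comp j)) x
        U V (fun k => i (a k)) (YS a) ∧
      ClsU (cl b) (LcN (ψ.map (algebraMap ℚ (AlgebraicClosure ℚ_[l])))
        (img (AlgebraicClosure ℚ_[l]) (ρ l) H₀) U V) := by
  by_cases hlp : l = p
  · subst hlp
    obtain ⟨H₀, U, V, h1, h2, h3⟩ := C.locp b ha hroot i
    exact ⟨H₀, U, V, _, h1, h2, h3⟩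
  · obtain ⟨H₀, U, V, h1, h2, h3⟩ := C.locl b ha hroot l hlp i
    exact ⟨H₀, U, V, _, h1, h2, h3⟩

/-- **One class: at one prime a component with an alternating form is simple.** -/
theorem simple5 (hg : Gen1 ρ) (b : Fin m) (hb : cl b = .s) {n : ℕ} {a : Fin n → Ω} (ha : Function.Injective a)
    (hroot : ∀ y : Ω, (F b).eval₂ j y = 0 ↔ ∃ k, y = a k) :
    ∃ (l : ℕ) (_ : Fact l.Prime) (L : Submodule (AlgebraicClosure ℚ_[l])
        (Module.End (AlgebraicClosure ℚ_[l]) (Fin n → AlgebraicClosure ℚ_[l]))),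
      0 < n ∧ H76Y.TM L ∧ SyL L ∧ H76P.Yo L = YS a ∧
      ∃ I : Fin 1 → Submodule (AlgebraicClosure ℚ_[l]) (Module.End (AlgebraicClosure ℚ_[l]) (Fin n → AlgebraicClosure ℚ_[l])),
        Fam L I := by
  obtain ⟨l, hl, h, hh, hgen⟩ := hg
  let i : Ω →+* AlgebraicClosure ℚ_[l] :=
    (IsAlgClosed.lift (R := ℚ) (S := Ω) (M := AlgebraicClosure ℚ_[l])).toRingHom
  obtain ⟨H₀, U, V, x, -, hL, hcls⟩ := loc_any5 C b ha hroot l i
  have hsy := hcls.1 hb
  have hT := (H45U.tm_iff (Or.inl hsy)).1 hL.ts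
  refine ⟨l, hl, _, hL.pos, hT, hsy, (H45U.Yo_eq (Or.inl hsy)).symm.trans hL.yo, ?_⟩
  have hspl := C.hspl.map (i.comp j)
  have hne : Nonempty (Fin n) := ⟨⟨0, hL.pos⟩⟩
  have hn := C.card b ha hroot
  obtain ⟨m', I, hF⟩ := Pool.Agent.H76T.exists_fam hT.cmp.lie hT.cmp.irr hT.cmp.tr
  have h1 : m' = 1 := by
    refine fam_one (Gs := img (AlgebraicClosure ℚ_[l]) (ρ l) ⊤) hL.pos hL.UV hL.VU hT.cmp.irr hT.cmp.tr
      (fun k hk => ⟨(hL.par k hk).1, (hL.par k hk).2.1, par_one hL hk ?_⟩)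
      (fun Z hZ => hspl.corner b Z (C.commt l ⊤ inferInstance Z hZ)) hh ?_ hF
    · rw [C.bal l k hk (i.comp j) b (by rw [hb]; decide), hn]
    · rintro _ ⟨g, -, rfl⟩
      exact hgen g
  subst h1
  exact ⟨I, hF⟩

/-- The components of rank `2 ^ k` with an alternating form. -/
theorem odd_two5 (hg : Gen1 ρ) (b : Fin m) (hb : cl b = .s) {n : ℕ} {a : Fin n → Ω} (ha : Function.Injective a)
    (hroot : ∀ y : Ω, (F b).eval₂ j y = 0 ↔ ∃ k, y = a k) {k : ℕ} (hk : n = 2 ^ k)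
    (hk' : ¬ (5 ≤ k ∧ (k % 4 = 1 ∨ k % 4 = 2))) :
    ∃ bar' : Equiv.Perm (Fin n), (∀ k, bar' (bar' k) = k) ∧ (∀ k, bar' k ≠ k) ∧
      (∀ f : Fin n → ℚ, (∀ k, f (bar' k) = -f k) → f ∈ YS a) ∧ ∀ f ∈ YS a, ∀ k, f (bar' k) = -f k := by
  obtain ⟨l, hl, L, hn, hT, hsy, hY, I, hF⟩ := simple5 C hg b hb ha hroot
  have hne : Nonempty (Fin n) := ⟨⟨0, hn⟩⟩
  obtain ⟨J, hTS⟩ := H76Y.ts_of_sy hT hsy
  rw [← hY]
  refine exists_odd hTS ?_
  rcases Cmp.simple hTS.cmp hF with h2 | ⟨n', hn', hn2', hn3', -⟩ | ⟨k', hk1, hk2, hk3, -⟩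
  · exact h2
  · exfalso
    rw [Module.finrank_fintype_fun_eq_card, Fintype.card_fin, hk] at hn3'
    have h3 : k = n' := Nat.pow_right_injective le_rfl hn3'
    subst h3
    exact hk' ⟨hn', hn2'⟩
  · exfalso
    rw [Module.finrank_fintype_fun_eq_card, Fintype.card_fin, hk] at hk3
    exact Pool.Agent.H49M.R3_binom_pow (by omega) hk3.symm

/-- **The components of rank `2 ^ k` with an alternating form are full.** -/
theorem full_two5 (hg : Gen1 ρ) (b : Fin m) (hb : cl b = .s) {n : ℕ} {a : Fin n → Ω} (ha : Function.Injective a)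
    (hroot : ∀ y : Ω, (F b).eval₂ j y = 0 ↔ ∃ k, y = a k) {k : ℕ} (hk : n = 2 ^ k)
    (hk' : ¬ (5 ≤ k ∧ (k % 4 = 1 ∨ k % 4 = 2))) {K : Type} [Field K] [CharZero K] [IsAlgClosed K]
    {L : Submodule K (Module.End K (Fin n → K))} {J : Matrix (Fin n) (Fin n) K} (hTS : TS L J)
    (hY : H76P.Yo L = YS a) {X : Module.End K (Fin n → K)} (hX : adjE J X = -X) : X ∈ L := by
  have hn : 0 < n := by rw [hk]; positivity
  have hne : Nonempty (Fin n) := ⟨⟨0, hn⟩⟩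
  obtain ⟨bar', hbb, hbne, hodd, hsk'⟩ := odd_two5 C hg b hb ha hroot hk hk'
  exact full_odd hTS hY hbb hbne hodd hsk' hX

end Pool.Agent.H76W
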