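import Pool.Agent.Lib.H53Toric.Zar
import Pool.Agent.Lib.H53Toric.Monodromy

/-!
# unipotent elements of exponent two give elements of the Lie algebras
-/

set_option autoImplicit false
set_option linter.unusedSectionVars false
namespace Pool.Agent.H76W
open Module Matrix Pool.Agent.H53Toric

variable {ι : Type*} [Fintype ι] [DecidableEq ι] {G : Type*} [Group G]

theorem one_add_pow {K : Type*} [Field K] {A : Matrix ι ι K} (hA : A * A = 0) (k : ℕ) :
    (1 + A) ^ k = 1 + (k : K) • A := by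
  induction k with
  | zero => rw [pow_zero, Nat.cast_zero, zero_smul, add_zero]
  | succ k ih =>
    rw [pow_succ, ih, add_mul, one_mul, mul_add, mul_one, smul_mul_assoc, hA, smul_zero, add_zero,
      Nat.cast_succ, add_smul, one_smul]
    abel

theorem bad_mem {l : ℕ} [Fact l.Prime] (ρ : G →* Matrix.GeneralLinearGroup ι ℚ_[l]) {g : G}
    (hg : ((ρ g).1 - 1) * ((ρ g).1 - 1) = 0) (H : Subgroup G) (hH : H.FiniteIndex) :
    ((ρ g).1 - 1).map (algebraMap ℚ_[l] (AlgebraicClosure ℚ_[l])) ∈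
      zlie (img (AlgebraicClosure ℚ_[l]) ρ H) := by
  obtain ⟨k₀, hk₀, hk₀'⟩ : ∃ k : ℕ, 0 < k ∧ g ^ k ∈ H := by
    obtain ⟨k, hk, -, h⟩ := Subgroup.exists_pow_mem_of_index_ne_zero hH.index_ne_zero g
    exact ⟨k, hk, h⟩
  obtain ⟨A, hA⟩ : ∃ A, A = (ρ g).1 - 1 := ⟨_, rfl⟩
  have hAA : A * A = 0 := hA ▸ hg
  have hpow : ∀ k : ℕ, (ρ (g ^ k)).1 = 1 + (k : ℚ_[l]) • A := by
    intro k
    rw [← one_add_pow hAA, map_pow, hA, add_sub_cancel]
    rfl
  rw [← hA]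
  have hmap : ∀ k : ℕ, (ρ (g ^ k)).1.map (algebraMap ℚ_[l] (AlgebraicClosure ℚ_[l])) =
      1 + (k : AlgebraicClosure ℚ_[l]) • A.map (algebraMap ℚ_[l] (AlgebraicClosure ℚ_[l])) := by
    intro k
    rw [hpow]
    ext i j
    simp only [Matrix.map_apply, Matrix.add_apply, Matrix.smul_apply, smul_eq_mul, map_add, map_mul,
      map_natCast, Matrix.one_apply]
    split_ifs <;> simp
  refine mem_zlie_of_infinite (T := Set.range fun n : ℕ => ((k₀ * n : ℕ) : AlgebraicClosure ℚ_[l])) ?_ ?_ ?_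
  · rintro _ ⟨x, hx, rfl⟩ _ ⟨y, hy, rfl⟩
    exact ⟨x * y, H.mul_mem hx hy, by
      rw [map_mul, Matrix.GeneralLinearGroup.coe_mul, Matrix.map_mul]⟩
  · refine Set.infinite_range_of_injective fun m n h => ?_
    have h1 : k₀ * m = k₀ * n := by exact_mod_cast h
    exact Nat.eq_of_mul_eq_mul_left hk₀ h1
  · rintro _ ⟨n, rfl⟩
    apply subset_zar
    refine ⟨g ^ (k₀ * n), ?_, (hmap _).symm⟩
    rw [pow_mul]
    exact H.pow_mem hk₀' n

theorem bad_of {l : ℕ} [Fact l.Prime] (ρ : G →* Matrix.GeneralLinearGroup ι ℚ_[l])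
    {M : Type*} [Field M] (e : Matrix ι ι M)
    (h : ∃ g : G, ((ρ g).1 - 1) * ((ρ g).1 - 1) = 0 ∧ ∀ i : M →+* AlgebraicClosure ℚ_[l],
      ((ρ g).1.map (algebraMap ℚ_[l] (AlgebraicClosure ℚ_[l])) - 1) * e.map i ≠ 0) :
    ∃ X : Matrix ι ι ℚ_[l], X * X = 0 ∧
      (∀ H : Subgroup G, H.FiniteIndex → X.map (algebraMap ℚ_[l] (AlgebraicClosure ℚ_[l])) ∈
        zlie (img (AlgebraicClosure ℚ_[l]) ρ H)) ∧
      ∀ i : M →+* AlgebraicClosure ℚ_[l],
        X.map (algebraMap ℚ_[l] (AlgebraicClosure ℚ_[l])) * e.map i ≠ 0 := by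
  obtain ⟨g, hg, hne⟩ := h
  refine ⟨(ρ g).1 - 1, hg, fun H hH => bad_mem ρ hg H hH, fun i => ?_⟩
  have h1 : ((ρ g).1 - 1).map (algebraMap ℚ_[l] (AlgebraicClosure ℚ_[l])) =
      (ρ g).1.map (algebraMap ℚ_[l] (AlgebraicClosure ℚ_[l])) - 1 := by
    rw [Matrix.map_sub _ (by intros; exact map_sub _ _ _), Matrix.map_one _ (map_zero _) (map_one _)]
  rw [h1]
  exact hne i

end Pool.Agent.H76W
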