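import Pool.Agent.Lib.H45K.K4a
import Pool.Agent.Lib.H76Q.X12b

/-!
# Every automorphism is in a decomposition group (Chebotarev)
-/

set_option autoImplicit false
set_option linter.unusedSectionVars false
namespace Pool.Agent.H76W
open NumberField IsDedekindDomain CFT Pool.Agent.H76Q

/-- The prime defined by an embedding into the closure of `ℚ_l`: elements with image in `ℚ_l` are congruent to
integers. -/
theorem dec_prime {M : Type} [Field M] [NumberField M] (l : ℕ) [hl : Fact l.Prime]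
    (f : M →+* AlgebraicClosure ℚ_[l]) : ∃ W : Pr M, (l : 𝓞 M) ∈ W.asIdeal ∧
      ∀ x : 𝓞 M, (∃ y : ℚ_[l], f x = algebraMap ℚ_[l] (AlgebraicClosure ℚ_[l]) y) →
        ∃ c : ℤ, x - (c : 𝓞 M) ∈ W.asIdeal := by
  obtain ⟨𝔓, hmax, hcomap⟩ := Ideal.exists_ideal_over_maximal_of_isIntegral
    (R := ℤ_[l]) (S := integralClosure ℤ_[l] (AlgebraicClosure ℚ_[l])) (IsLocalRing.maximalIdeal ℤ_[l]) (by
      intro x hx
      have h1 : algebraMap ℤ_[l] (AlgebraicClosure ℚ_[l]) x = 0 := congrArg Subtype.val (RingHom.mem_ker.1 hx)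
      rw [IsScalarTower.algebraMap_apply ℤ_[l] ℚ_[l] (AlgebraicClosure ℚ_[l]), map_eq_zero] at h1
      have h2 : x = 0 := (IsFractionRing.injective ℤ_[l] ℚ_[l]) (by rw [h1, map_zero])
      rw [h2]
      exact Submodule.zero_mem _)
  have hint : ∀ x : 𝓞 M, IsIntegral ℤ_[l] (f x) := by
    intro x
    have h1 : IsIntegral ℤ (f x) := map_isIntegral_int f x.isIntegral_coe
    exact h1.tower_top
  let g : 𝓞 M →+* integralClosure ℤ_[l] (AlgebraicClosure ℚ_[l]) :=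
    { toFun := fun x => ⟨f x, hint x⟩
      map_one' := Subtype.ext (by simp)
      map_mul' := fun x y => Subtype.ext (by simp)
      map_zero' := Subtype.ext (by simp)
      map_add' := fun x y => Subtype.ext (by simp) }
  have hl0 : (l : 𝓞 M) ∈ 𝔓.comap g := by
    rw [Ideal.mem_comap, map_natCast]
    have h1 : (l : ℤ_[l]) ∈ 𝔓.comap (algebraMap ℤ_[l] (integralClosure ℤ_[l] (AlgebraicClosure ℚ_[l]))) := by
      rw [hcomap, PadicInt.maximalIdeal_eq_span_p]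
      exact Ideal.mem_span_singleton_self _
    rw [Ideal.mem_comap, map_natCast] at h1
    exact h1
  have hprime : (𝔓.comap g).IsPrime := Ideal.comap_isPrime g 𝔓
  have hne : 𝔓.comap g ≠ ⊥ := by
    intro h
    rw [h, Ideal.mem_bot] at hl0
    exact hl.out.ne_zero (by exact_mod_cast hl0)
  refine ⟨⟨𝔓.comap g, hprime, hne⟩, hl0, ?_⟩
  rintro x ⟨y, hy⟩
  have hyint : IsIntegral ℤ_[l] y := by
    have h1 := hint x
    rw [hy] at h1
    exact (isIntegral_algebraMap_iff (algebraMap ℚ_[l] (AlgebraicClosure ℚ_[l])).injective).1 h1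
  obtain ⟨z, hz⟩ := IsIntegrallyClosed.isIntegral_iff.1 hyint
  refine ⟨(PadicInt.zmodRepr z : ℤ), ?_⟩
  change _ ∈ 𝔓.comap g
  rw [Ideal.mem_comap, map_sub]
  have h2 := PadicInt.sub_zmodRepr_mem z
  rw [← hcomap, Ideal.mem_comap, map_sub, map_natCast] at h2
  have h3 : g x = algebraMap ℤ_[l] (integralClosure ℤ_[l] (AlgebraicClosure ℚ_[l])) z := by
    apply Subtype.ext
    change f x = algebraMap ℤ_[l] (AlgebraicClosure ℚ_[l]) z
    rw [hy, ← hz, ← IsScalarTower.algebraMap_apply]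
  rw [h3]
  simpa using h2

theorem dec_under {M : Type} [Field M] [NumberField M] (W : Pr M) {l : ℕ} (hl : l.Prime)
    (h : (l : 𝓞 M) ∈ W.asIdeal) : W.asIdeal.under ℤ = Ideal.span {(l : ℤ)} := by
  have hmax : (Ideal.span {(l : ℤ)}).IsMaximal :=
    PrincipalIdealRing.isMaximal_of_irreducible (Nat.prime_iff_prime_int.1 hl).irreducible
  refine (Ideal.IsMaximal.eq_of_le hmax ?_ ?_).symm
  · intro h1
    rw [Ideal.eq_top_iff_one, Ideal.under, Ideal.mem_comap, map_one] at h1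
    exact W.isPrime.ne_top ((Ideal.eq_top_iff_one _).2 h1)
  · rw [Ideal.span_singleton_le_iff_mem, Ideal.under, Ideal.mem_comap, map_natCast]
    exact h

/-- For arbitrarily large primes `l` an automorphism of a Galois number field is induced by an automorphism of the
closure of `ℚ_l`, for a suitable embedding. -/
theorem dec_gal (M : Type) [Field M] [NumberField M] [IsGalois ℚ M] (σ : M ≃ₐ[ℚ] M) (B : ℕ) :
    ∃ (l : ℕ) (_ : Fact l.Prime), B < l ∧ ∀ f : M →+* AlgebraicClosure ℚ_[l], ∃ τ : M ≃ₐ[ℚ] M,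
      ∃ t : AlgebraicClosure ℚ_[l] ≃ₐ[ℚ_[l]] AlgebraicClosure ℚ_[l], ∀ x, t (f (τ x)) = f (τ (σ x)) := by
  classical
  have hH : ∀ H : Subgroup (M ≃ₐ[ℚ] M), σ ∉ H → ∃ x : 𝓞 M, (∀ s ∈ H, s • x = x) ∧ σ • x - x ≠ 0 := by
    intro H hσ
    rw [← IntermediateField.fixingSubgroup_fixedField H, IntermediateField.mem_fixingSubgroup_iff] at hσ
    push Not at hσ
    obtain ⟨x, hx, hne⟩ := hσ
    obtain ⟨D, y, hD0, hy⟩ := H45K.k4_mult x
    have hsm : ∀ s : M ≃ₐ[ℚ] M, ((s • y : 𝓞 M) : M) = (D : M) * s x := by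
      intro s
      have h1 : ((s • y : 𝓞 M) : M) = s (y : M) := rfl
      rw [h1, hy, map_mul, map_intCast]
    refine ⟨y, fun s hs => ?_, fun h0 => hne ?_⟩
    · apply RingOfIntegers.ext
      rw [hsm, hy]
      congr 1
      exact hx ⟨s, hs⟩
    · have h2 : ((σ • y : 𝓞 M) : M) = (y : M) := by rw [sub_eq_zero.1 h0]
      rw [hsm, hy] at h2
      exact mul_left_cancel₀ (by exact_mod_cast hD0) h2
  choose! θ hθ hθσ using hH
  have hfin : Finite (Subgroup (M ≃ₐ[ℚ] M)) := inferInstance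
  have : Fintype (Subgroup (M ≃ₐ[ℚ] M)) := Fintype.ofFinite _
  obtain ⟨B', hB'⟩ : ∃ B', B' = B + ∑ H : Subgroup (M ≃ₐ[ℚ] M), Ideal.absNorm (Ideal.span {σ • θ H - θ H}) := ⟨_, rfl⟩
  obtain ⟨l, hl, hBl, W, hlW, hFr⟩ := H45K.k4_frob M σ B'
  have hlf : Fact l.Prime := ⟨hl⟩
  refine ⟨l, hlf, by omega, fun f => ?_⟩
  obtain ⟨Wf, hlWf, hWf⟩ := dec_prime l f
  have hWp : W.asIdeal.IsPrime := W.isPrime
  have hWfp : Wf.asIdeal.IsPrime := Wf.isPrime
  obtain ⟨τ, hτ⟩ := Algebra.IsInvariant.exists_smul_of_under_eq ℤ (𝓞 M) (M ≃ₐ[ℚ] M) W.asIdeal Wf.asIdeal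
    ((dec_under W hl hlW).trans (dec_under Wf hl hlWf).symm)
  refine ⟨τ, ?_⟩
  let H : Subgroup (M ≃ₐ[ℚ] M) :=
    { carrier := {s | ∃ t : AlgebraicClosure ℚ_[l] ≃ₐ[ℚ_[l]] AlgebraicClosure ℚ_[l],
        ∀ x, t (f (τ x)) = f (τ (s x))}
      mul_mem' := by
        rintro s s' ⟨t, ht⟩ ⟨t', ht'⟩
        refine ⟨t * t', fun x => ?_⟩
        show t (t' (f (τ x))) = f (τ (s (s' x)))
        rw [ht', ht]
      one_mem' := ⟨1, fun x => rfl⟩
      inv_mem' := by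
        rintro s ⟨t, ht⟩
        refine ⟨t⁻¹, fun x => ?_⟩
        show t.symm (f (τ x)) = f (τ (s.symm x))
        rw [AlgEquiv.symm_apply_eq, ht, AlgEquiv.apply_symm_apply] }
  have hσ : σ ∈ H := by
    by_contra hσ
    have hfix : ∀ t : AlgebraicClosure ℚ_[l] ≃ₐ[ℚ_[l]] AlgebraicClosure ℚ_[l],
        t (f (τ (θ H : M))) = f (τ (θ H : M)) := by
      intro t
      let _ : Algebra M (AlgebraicClosure ℚ_[l]) := (f.comp (τ : M →+* M)).toAlgebra
      have : IsScalarTower ℚ M (AlgebraicClosure ℚ_[l]) := IsScalarTower.of_algebraMap_eq' (Subsingleton.elim _ _)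
      obtain ⟨s, hs⟩ : ∃ s : M ≃ₐ[ℚ] M, ∀ y, f (τ (s y)) = t (f (τ y)) :=
        ⟨(t.restrictScalars ℚ).restrictNormal M, fun y => AlgEquiv.restrictNormal_commutes (t.restrictScalars ℚ) M y⟩
      have hsH : s ∈ H := ⟨t, fun x => (hs x).symm⟩
      rw [← hs]
      have h1 : s (θ H : M) = (θ H : M) := congrArg (fun z : 𝓞 M => (z : M)) (hθ H hσ s hsH)
      rw [h1]
    obtain ⟨y, hy⟩ := fixed_mem hfix
    obtain ⟨c, hc⟩ := hWf (τ • θ H) ⟨y, hy⟩
    have h1 : θ H - (c : 𝓞 M) ∈ W.asIdeal := by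
      rw [← Ideal.smul_mem_pointwise_smul_iff (a := τ), ← hτ, smul_sub]
      have h2 : τ • (c : 𝓞 M) = (c : 𝓞 M) := by
        apply RingOfIntegers.ext
        show τ ((c : 𝓞 M) : M) = _
        simp
      rw [h2]
      exact hc
    have h2 : σ • θ H - θ H ∈ W.asIdeal := by
      have h3 := hFr (θ H)
      have h4 := hFr (c : 𝓞 M)
      have h5 : σ • (c : 𝓞 M) = (c : 𝓞 M) := by
        apply RingOfIntegers.ext
        show σ ((c : 𝓞 M) : M) = _
        simp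
      rw [h5] at h4
      have h6 : θ H ^ l - (c : 𝓞 M) ^ l ∈ W.asIdeal :=
        Ideal.mem_of_dvd _ (sub_dvd_pow_sub_pow _ _ l) h1
      have h7 : σ • θ H - θ H = (σ • θ H - θ H ^ l) + (θ H ^ l - (c : 𝓞 M) ^ l) - ((c : 𝓞 M) - (c : 𝓞 M) ^ l) -
          (θ H - (c : 𝓞 M)) := by ring
      rw [h7]
      exact W.asIdeal.sub_mem (W.asIdeal.sub_mem (W.asIdeal.add_mem h3 h6) h4) h1
    have h3 : ((Ideal.absNorm (Ideal.span {σ • θ H - θ H}) : ℕ) : 𝓞 M) ∈ W.asIdeal :=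
      (Ideal.span_singleton_le_iff_mem _).2 h2 (Ideal.absNorm_mem _)
    have h4 := H45K.k4_dvd W hl hlW (Ideal.absNorm (Ideal.span {σ • θ H - θ H}) : ℤ) (by exact_mod_cast h3)
    have h5 : Ideal.absNorm (Ideal.span {σ • θ H - θ H}) ≠ 0 := by
      rw [Ne, Ideal.absNorm_eq_zero_iff, Ideal.span_singleton_eq_bot]
      exact hθσ H hσ
    have h6 : Ideal.absNorm (Ideal.span {σ • θ H - θ H}) ≤ B' := by
      rw [hB']
      have := Finset.single_le_sum (f := fun H : Subgroup (M ≃ₐ[ℚ] M) => Ideal.absNorm (Ideal.span {σ • θ H - θ H}))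
        (fun _ _ => Nat.zero_le _) (Finset.mem_univ H)
      omega
    have h7 := Nat.le_of_dvd (Nat.pos_of_ne_zero h5) (Int.natCast_dvd_natCast.1 h4)
    omega
  exact hσ

/-- Every automorphism is, on a finite set, in a decomposition group at a prime not in the finite set `N`. -/
theorem dec_all {Ω : Type} [Field Ω] [CharZero Ω] [IsAlgClosed Ω] [Algebra.IsAlgebraic ℚ Ω] (N : Set ℕ)
    (hNf : N.Finite) (s : Ω ≃+* Ω) (T : Finset Ω) : ∃ (l : ℕ) (_ : Fact l.Prime), l ∉ N ∧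
      ∃ (i : Ω →+* AlgebraicClosure ℚ_[l]) (t : AlgebraicClosure ℚ_[l] ≃ₐ[ℚ_[l]] AlgebraicClosure ℚ_[l]),
        ∀ x ∈ T, t (i x) = i (s x) := by
  have hcl : IsAlgClosure ℚ Ω := ⟨inferInstance, inferInstance⟩
  have hG : IsGalois ℚ Ω := inferInstance
  obtain ⟨M, hM⟩ : ∃ M : FiniteGaloisIntermediateField ℚ Ω, (T : Set Ω) ⊆ ((M : IntermediateField ℚ Ω) : Set Ω) :=
    ⟨FiniteGaloisIntermediateField.adjoin ℚ (T : Set Ω), FiniteGaloisIntermediateField.subset_adjoin ℚ _⟩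
  have hMG : IsGalois ℚ M.toIntermediateField := M.isGalois
  have hMf : FiniteDimensional ℚ M.toIntermediateField := M.finiteDimensional
  have hMn : Normal ℚ M.toIntermediateField := hMG.to_normal
  have hNF : NumberField M.toIntermediateField := ⟨⟩
  obtain ⟨s', hs'⟩ : ∃ s' : Ω ≃ₐ[ℚ] Ω, ∀ x, s' x = s x :=
    ⟨AlgEquiv.ofRingEquiv (f := s) (fun r => map_ratCast s r), fun _ => rfl⟩
  obtain ⟨B, hB⟩ := hNf.bddAbove
  obtain ⟨l, hl, hBl, h⟩ := dec_gal M.toIntermediateField (s'.restrictNormal M.toIntermediateField) B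
  have hlN : l ∉ N := fun h1 => absurd (hB h1) (by omega)
  obtain ⟨i₀⟩ : Nonempty (Ω →+* AlgebraicClosure ℚ_[l]) :=
    ⟨(IsAlgClosed.lift (R := ℚ) (S := Ω) (M := AlgebraicClosure ℚ_[l])).toRingHom⟩
  obtain ⟨τ, t, ht⟩ := h (i₀.comp (algebraMap M.toIntermediateField Ω))
  refine ⟨l, hl, hlN, i₀.comp ((τ.liftNormal Ω : Ω ≃ₐ[ℚ] Ω) : Ω →+* Ω), t, fun x hx => ?_⟩
  have h1 := ht ⟨x, hM hx⟩
  have h2 : ∀ y : M.toIntermediateField, (τ.liftNormal Ω) (y : Ω) = (τ y : Ω) := fun y => AlgEquiv.liftNormal_commutes τ Ω y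
  have h3 : ∀ y : M.toIntermediateField, ((s'.restrictNormal M.toIntermediateField y : M.toIntermediateField) : Ω) = s' (y : Ω) :=
    fun y => AlgEquiv.restrictNormal_commutes s' M.toIntermediateField y
  show t (i₀ ((τ.liftNormal Ω) x)) = i₀ ((τ.liftNormal Ω) (s x))
  have h4 := h2 ⟨x, hM hx⟩
  have h5 := h2 (s'.restrictNormal M.toIntermediateField ⟨x, hM hx⟩)
  rw [h3] at h5
  change (τ.liftNormal Ω) x = _ at h4
  change (τ.liftNormal Ω) (s' x) = _ at h5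
  rw [h4, ← hs', h5]
  exact h1

end Pool.Agent.H76W
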