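import Pool.Agent.Lib.H76Q.BL1
import Pool.Agent.Lib.H76Q.W10b

/-!
# the numbers of points of the blocks
-/

set_option autoImplicit false
set_option linter.unusedSectionVars false
namespace Pool.Agent.H76W
open Module Matrix Pool.Agent.H53Toric Pool.Agent.H76P Pool.Agent.H76Q

section
variable {κ : Type*} [Fintype κ] {V : Type*} [AddCommGroup V] [Module ℚ V] {pt : κ → V}

/-- An atom is not the product of two configurations of two points. -/
theorem atom_four {q : Module.End ℚ V} (hq : Atom pt q) {w₁ w₂ : V} (h1 : q w₁ = w₁) (h2 : q w₂ = w₂)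
    (hw1 : w₁ ≠ 0) (hw2 : w₂ ≠ 0) (l : V →ₗ[ℚ] ℚ) (l1 : l w₁ = 1) (l2 : l w₂ = 0)
    (hS : ∀ a, q (pt a) = w₁ + w₂ ∨ q (pt a) = w₁ - w₂ ∨ q (pt a) = -w₁ + w₂ ∨ q (pt a) = -w₁ - w₂)
    (hS' : ∀ x y : ℚ, (x = 1 ∨ x = -1) → (y = 1 ∨ y = -1) → ∃ a, q (pt a) = x • w₁ + y • w₂) : False := by
  classical
  obtain ⟨hsp, hq0, hmin⟩ := hq
  obtain ⟨p, hp⟩ : ∃ p : Module.End ℚ V, ∀ x, p x = l (q x) • w₁ :=
    ⟨(l.comp q).smulRight w₁, fun x => rfl⟩
  have hqq : ∀ x, q (q x) = q x := fun x => congrArg (fun f : Module.End ℚ V => f x) hsp.1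
  have hpw1 : p w₁ = w₁ := by rw [hp, h1, l1, one_smul]
  have hpw2 : p w₂ = 0 := by rw [hp, h2, l2, zero_smul]
  have hval : ∀ a, ∃ x y : ℚ, (x = 1 ∨ x = -1) ∧ (y = 1 ∨ y = -1) ∧ q (pt a) = x • w₁ + y • w₂ := by
    intro a
    rcases hS a with h | h | h | h
    · exact ⟨1, 1, Or.inl rfl, Or.inl rfl, by rw [h, one_smul, one_smul]⟩
    · exact ⟨1, -1, Or.inl rfl, Or.inr rfl, by rw [h]; module⟩
    · exact ⟨-1, 1, Or.inr rfl, Or.inl rfl, by rw [h]; module⟩
    · exact ⟨-1, -1, Or.inr rfl, Or.inr rfl, by rw [h]; module⟩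
  have hsplit : Spl pt p := by
    refine ⟨?_, fun a b => ?_⟩
    · ext x
      rw [Module.End.mul_apply, hp (p x), hp x, map_smul, map_smul, h1, l1, smul_eq_mul, mul_one]
    · obtain ⟨x, y, hx, hy, hxy⟩ := hval a
      obtain ⟨x', y', hx', hy', hxy'⟩ := hval b
      obtain ⟨d, hd⟩ := hS' x' y hx' hy
      obtain ⟨c, hc⟩ := hsp.2 a d
      refine ⟨c, ?_⟩
      rw [hc, hp, map_sub, map_sub, hd, hxy, hxy', map_sub, map_add, map_add, map_smul, map_smul,
        map_smul, map_smul, l1, l2]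
      simp only [smul_eq_mul]
      module
  rcases hmin p hsplit (by
    ext x
    rw [Module.End.mul_apply, hp, hp, hqq]) with h | h
  · apply hw1
    rw [← hpw1, h, LinearMap.zero_apply]
  · apply hw2
    rw [← h2, ← h, hpw2]

end

section
variable {κ : Type*} [Fintype κ] [DecidableEq κ] {Y : Submodule ℚ (κ → ℚ)} {P : Module.End ℚ Y}

/-- A symmetric atom with a function with two values has not three, four or five points. -/
theorem atom_six [Nonempty κ] (hP : Atom (ptS Y) P.dualMap) (bar : Equiv.Perm κ)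
    (hbb : ∀ k, bar (bar k) = k) (hbar : ∀ f ∈ Y, ∀ k, f (bar k) = -f k) {f : Y} (hf : P f = f) (hf0 : f ≠ 0)
    {c : ℚ} (hf2 : ∀ k, (f : κ → ℚ) k = c + 1 ∨ (f : κ → ℚ) k = c - 1) (h3 : 3 ≤ nz P) : 6 ≤ nz P := by
  classical
  have hfb : ∀ k, (f : κ → ℚ) (bar k) = -(f : κ → ℚ) k := hbar f f.2
  have hc : c = 0 := by
    by_contra hc
    apply hf0
    apply Subtype.ext
    funext k
    show (f : κ → ℚ) k = 0
    have h1 := hf2 k
    have h2 := hf2 (bar k)
    rw [hfb] at h2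
    rcases h1 with h1 | h1 <;> rcases h2 with h2 | h2
    · linarith
    · exact absurd (by linarith) hc
    · exact absurd (by linarith) hc
    · linarith
  have hpm : ∀ k, (f : κ → ℚ) k = 1 ∨ (f : κ → ℚ) k = -1 := by
    intro k
    rcases hf2 k with h | h
    · left; rw [h, hc]; norm_num
    · right; rw [h, hc]; norm_num
  have hcz : ∀ k k', cz P k k' → (f : κ → ℚ) k = (f : κ → ℚ) k' := by
    intro k k' h
    have := h f
    rwa [hf] at this
  have heven : Even (nz P) := by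
    refine nz_even bar hbb (fun k k' h g => ?_) fun k h => ?_
    · rw [hbar _ (P g).2, hbar _ (P g).2, h g]
    · have h1 := hcz _ _ h
      rw [hfb] at h1
      rcases hpm k with h2 | h2 <;> rw [h2] at h1 <;> norm_num at h1
  by_contra hcon
  push Not at hcon
  have h4 : nz P = 4 := by
    obtain ⟨r, hr⟩ := heven
    omega
  -- the four points
  obtain ⟨v, hv⟩ : ∃ v : κ → Module.Dual ℚ Y, ∀ k, v k = P.dualMap (ptS Y k) := ⟨_, fun _ => rfl⟩
  have hvf : ∀ k (g : Y), v k g = (P g : κ → ℚ) k := fun k g => by rw [hv]; rfl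
  have hvff : ∀ k, v k f = (f : κ → ℚ) k := fun k => by rw [hvf, hf]
  have hvb : ∀ k, v (bar k) = -v k := by
    intro k
    ext g
    rw [hvf, LinearMap.neg_apply, hvf, hbar _ (P g).2]
  have hvq : ∀ k, P.dualMap (v k) = v k := by
    intro k
    rw [hv]
    exact congrArg (fun q : Module.End ℚ (Module.Dual ℚ Y) => q (ptS Y k)) hP.1.1
  have hcard : (Finset.univ.image v).card = 4 := by
    have h5 := nz_eq P
    rw [h4] at h5
    rw [h5]
    unfold cnt
    congr 1
    ext x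
    simp only [Finset.mem_image, hv]
  obtain ⟨k₀⟩ := ‹Nonempty κ›
  -- another point which is not `± v k₀`
  obtain ⟨k₁, hk₁, hk₁'⟩ : ∃ k₁, v k₁ ≠ v k₀ ∧ v k₁ ≠ -v k₀ := by
    by_contra hno
    push Not at hno
    have h5 : Finset.univ.image v ⊆ {v k₀, -v k₀} := by
      intro x hx
      obtain ⟨k, -, rfl⟩ := Finset.mem_image.1 hx
      rw [Finset.mem_insert, Finset.mem_singleton]
      by_cases h6 : v k = v k₀
      · exact Or.inl h6
      · exact Or.inr (hno k h6)
    have h6 := Finset.card_le_card h5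
    have h7 := Finset.card_le_two (a := v k₀) (b := -v k₀)
    omega
  -- all points
  have hne0 : ∀ k, v k ≠ -v k := by
    intro k h
    have h5 := congrArg (fun φ : Module.Dual ℚ Y => φ f) h
    simp only [LinearMap.neg_apply] at h5
    rw [hvff] at h5
    rcases hpm k with h6 | h6 <;> rw [h6] at h5 <;> norm_num at h5
  have hall : ∀ k, v k = v k₀ ∨ v k = -v k₀ ∨ v k = v k₁ ∨ v k = -v k₁ := by
    have h5 : ({v k₀, -v k₀, v k₁, -v k₁} : Finset (Module.Dual ℚ Y)) ⊆ Finset.univ.image v := by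
      intro x hx
      simp only [Finset.mem_insert, Finset.mem_singleton] at hx
      rw [Finset.mem_image]
      rcases hx with rfl | rfl | rfl | rfl
      · exact ⟨k₀, Finset.mem_univ _, rfl⟩
      · exact ⟨bar k₀, Finset.mem_univ _, hvb k₀⟩
      · exact ⟨k₁, Finset.mem_univ _, rfl⟩
      · exact ⟨bar k₁, Finset.mem_univ _, hvb k₁⟩
    have h6 : ({v k₀, -v k₀, v k₁, -v k₁} : Finset (Module.Dual ℚ Y)).card = 4 := by
      rw [Finset.card_insert_of_notMem, Finset.card_insert_of_notMem, Finset.card_insert_of_notMem,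
        Finset.card_singleton]
      · rw [Finset.mem_singleton]
        exact hne0 k₁
      · simp only [Finset.mem_insert, Finset.mem_singleton, not_or]
        exact ⟨fun h => hk₁' h.symm, fun h => hk₁ (neg_injective h).symm⟩
      · simp only [Finset.mem_insert, Finset.mem_singleton, not_or]
        exact ⟨hne0 k₀, fun h => hk₁ h.symm, fun h => hk₁' (by rw [h, neg_neg])⟩
    have h7 : ({v k₀, -v k₀, v k₁, -v k₁} : Finset (Module.Dual ℚ Y)) = Finset.univ.image v :=
      Finset.eq_of_subset_of_card_le h5 (by rw [h6, hcard])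
    intro k
    have h8 : v k ∈ Finset.univ.image v := Finset.mem_image_of_mem v (Finset.mem_univ k)
    rw [← h7] at h8
    simpa only [Finset.mem_insert, Finset.mem_singleton] using h8
  -- the two vectors
  obtain ⟨w₁, hw₁⟩ : ∃ w₁, w₁ = (1 / 2 : ℚ) • (v k₀ + v k₁) := ⟨_, rfl⟩
  obtain ⟨w₂, hw₂⟩ : ∃ w₂, w₂ = (1 / 2 : ℚ) • (v k₀ - v k₁) := ⟨_, rfl⟩
  have e0 : v k₀ = w₁ + w₂ := by rw [hw₁, hw₂]; module
  have e1 : v k₁ = w₁ - w₂ := by rw [hw₁, hw₂]; module
  have hw1 : w₁ ≠ 0 := by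
    intro h
    apply hk₁'
    rw [e0, e1, h]
    module
  have hw2 : w₂ ≠ 0 := by
    intro h
    apply hk₁
    rw [e0, e1, h]
    module
  -- a functional with `l w₁ = 1`, `l w₂ = 0`
  obtain ⟨g, hg1, hg2⟩ : ∃ g : Y, w₁ g ≠ 0 ∧ w₂ g = 0 := by
    by_contra hno
    push Not at hno
    -- `ker w₂ ≤ ker w₁`, so `w₁` is a multiple of `w₂`
    have h5 : LinearMap.ker w₂ ≤ LinearMap.ker w₁ := by
      intro g hg
      rw [LinearMap.mem_ker] at hg ⊢
      by_contra h6
      exact hno g h6 hg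
    obtain ⟨t, ht⟩ : ∃ t : ℚ, w₁ = t • w₂ := by
      have h7 : w₁ ∈ Submodule.span ℚ (Set.range fun _ : Unit => w₂) :=
        mem_span_of_iInf_ker_le_ker (by rw [iInf_const]; exact h5)
      rw [Set.range_const] at h7
      obtain ⟨t, ht⟩ := Submodule.mem_span_singleton.1 h7
      exact ⟨t, ht.symm⟩
    have h6 : (f : κ → ℚ) k₀ = (t + 1) * w₂ f := by
      rw [← hvff, e0, ht, LinearMap.add_apply, LinearMap.smul_apply, smul_eq_mul]
      ring
    have h7 : (f : κ → ℚ) k₁ = (t - 1) * w₂ f := by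
      rw [← hvff, e1, ht, LinearMap.sub_apply, LinearMap.smul_apply, smul_eq_mul]
      ring
    have h8 : t ≠ 0 := by
      rintro rfl
      rw [zero_smul] at ht
      exact hw1 ht
    have h9 : w₂ f ≠ 0 := by
      intro h
      rw [h, mul_zero] at h6
      rcases hpm k₀ with h10 | h10 <;> rw [h10] at h6 <;> norm_num at h6
    have h10 : (f : κ → ℚ) k₀ * (f : κ → ℚ) k₀ = 1 := by
      rcases hpm k₀ with h | h <;> rw [h] <;> norm_num
    have h11 : (f : κ → ℚ) k₁ * (f : κ → ℚ) k₁ = 1 := by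
      rcases hpm k₁ with h | h <;> rw [h] <;> norm_num
    rw [h6] at h10
    rw [h7] at h11
    have h12 : 4 * t * (w₂ f * w₂ f) = 0 := by linear_combination h10 - h11
    rcases mul_eq_zero.1 h12 with h13 | h13
    · exact h8 (by linarith)
    · exact h9 (mul_self_eq_zero.1 h13)
  refine atom_four (q := P.dualMap) hP (w₁ := w₁) (w₂ := w₂) ?_ ?_ hw1 hw2
    ((w₁ g)⁻¹ • LinearMap.applyₗ (R := ℚ) g) ?_ ?_ (fun a => ?_) fun x y hx hy => ?_
  · rw [hw₁, map_smul, map_add, hvq, hvq]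
  · rw [hw₂, map_smul, map_sub, hvq, hvq]
  · rw [LinearMap.smul_apply, LinearMap.applyₗ_apply_apply, smul_eq_mul, inv_mul_cancel₀ hg1]
  · rw [LinearMap.smul_apply, LinearMap.applyₗ_apply_apply, hg2, smul_zero]
  · rw [← hv]
    rcases hall a with h | h | h | h
    · left; rw [h, e0]
    · right; right; right; rw [h, e0]; module
    · right; left; rw [h, e1]
    · right; right; left; rw [h, e1]; module
  · rcases hx with rfl | rfl <;> rcases hy with rfl | rfl
    · exact ⟨k₀, by rw [← hv, e0]; module⟩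
    · exact ⟨k₁, by rw [← hv, e1]; module⟩
    · exact ⟨bar k₁, by rw [← hv, hvb, e1]; module⟩
    · exact ⟨bar k₀, by rw [← hv, hvb, e0]; module⟩

/-- At most one block has two points. -/
theorem block_two [Nonempty κ] (h0 : ∀ f ∈ Y, ∑ k, f k = 0) (h8 : Fintype.card κ ≠ 8) {P P' : Module.End ℚ Y}
    (hP : IsBlock P) (hP' : IsBlock P') (hn : ¬ (Atom (ptS Y) P.dualMap ∧ cnt (ptS Y) P.dualMap ≠ 2))
    (hn' : ¬ (Atom (ptS Y) P'.dualMap ∧ cnt (ptS Y) P'.dualMap ≠ 2)) : P = P' := by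
  classical
  have hs := ptS_spans h0
  obtain ⟨s, hsm, hsum⟩ := atoms_sum hs
  have key : ∀ P : Module.End ℚ Y, IsBlock P → ¬ (Atom (ptS Y) P.dualMap ∧ cnt (ptS Y) P.dualMap ≠ 2) →
      P.dualMap = ∑ q ∈ s.filter fun q => cnt (ptS Y) q = 2, q := by
    intro P hP hn
    rcases hP with h | h | h
    · exact absurd h.1 h8
    · exact absurd h.2 hn
    · exact spl_eq_sum hs h.2.1 s hsm hsum _ fun q hq => h.2.2.2 q ((hsm q).1 hq)
  exact dualMap_inj ((key P hP hn).trans (key P' hP' hn').symm)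

end

end Pool.Agent.H76W
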