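import Pool.Agent.Lib.H45Q.S5
import Pool.Agent.Lib.H86L.M4

/-!
# the component theorem of the fourth version with one class of Hodge-Tate cocharacters
-/

set_option autoImplicit false
set_option linter.unusedSectionVars false
namespace Pool.Agent.H76W
open Module Matrix Polynomial Pool.Agent.H53Toric Pool.Agent.H76P Pool.Agent.H76Q Pool.Agent.H45Q
open Pool.Agent.H86L
open Pool.Agent.H76Y (LcN ThetaN TM CmpN NsL PartN)
open Pool.Agent.H76Z (Cl LocN Core3 Splits)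
open Pool.Agent.H76T (IsIdeal Fam)
open Pool.Agent.H76V (Cmp)
open Pool.Agent.H76U (cmp preL IsSplitting)
open Pool.Agent.H76RM (spanK similD)

variable {ι : Type*} [Fintype ι] [DecidableEq ι] {ψ : Matrix ι ι ℚ}
    {D : Subalgebra ℚ (Matrix ι ι ℚ)} {M : Type*} [Field M] [NumberField M]
    {m : ℕ} {cl : Fin m → Cl} {bar : Fin m → Fin m} {e : Fin m → Matrix ι ι M} {u₀ : Matrix ι ι M}
    {G : Type*} [Group G]
    {ρ : ∀ (l : ℕ) [Fact l.Prime], G →* Matrix.GeneralLinearGroup ι ℚ_[l]}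
    {p : ℕ} [Fact p.Prime] {σ : G} {q : ℚ} {F : Fin m → M[X]}
    {φ μ ν : Matrix ι ι (AlgebraicClosure ℚ_[p])} {v : AlgebraicClosure ℚ_[p] → ℚ}
    {Δ : Set (AlgebraicClosure ℚ_[p] ≃+* AlgebraicClosure ℚ_[p])}
    {Ω : Type} [Field Ω] [CharZero Ω] [IsAlgClosed Ω] [Algebra.IsAlgebraic ℚ Ω] {j : M →+* Ω}
    {R : Finset Ω} {N : Set ℕ} (C : Core3 ψ D cl bar e u₀ ρ p σ q F φ μ ν v Δ j R N)

include C

/-- Local data at any prime. -/
theorem loc_any4 (b : Fin m) {n : ℕ} {a : Fin n → Ω} (ha : Function.Injective a)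
    (hroot : ∀ y : Ω, (F b).eval₂ j y = 0 ↔ ∃ k, y = a k)
    (l : ℕ) [hl : Fact l.Prime] (i : Ω →+* AlgebraicClosure ℚ_[l]) :
    ∃ (H₀ : Subgroup G) (U : Matrix ι (Fin n) (AlgebraicClosure ℚ_[l]))
      (V : Matrix (Fin n) ι (AlgebraicClosure ℚ_[l])) (x : Matrix ι ι (AlgebraicClosure ℚ_[l])), H₀.FiniteIndex ∧
      H76Z.LocN (cl b) (ψ.map (algebraMap ℚ (AlgebraicClosure ℚ_[l]))) (img (AlgebraicClosure ℚ_[l]) (ρ l) H₀)
        (properProj (AlgebraicClosure ℚ_[l]) (ρ l)) ((e b).map (i.comp j)) x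
        (algebraMap ℚ (AlgebraicClosure ℚ_[l]) q) U V (fun k => i (a k)) (YS a) := by
  by_cases hlp : l = p
  · subst hlp
    obtain ⟨H₀, U, V, h1, h2⟩ := C.locp b ha hroot i
    exact ⟨H₀, U, V, _, h1, h2⟩
  · obtain ⟨H₀, U, V, h1, h2⟩ := C.locl b ha hroot l hlp i
    exact ⟨H₀, U, V, _, h1, h2⟩

/-- **One class: at one prime all components are simple.** -/
theorem simple4 (hg : Gen1 ρ) (b : Fin m) {n : ℕ} {a : Fin n → Ω} (ha : Function.Injective a)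
    (hroot : ∀ y : Ω, (F b).eval₂ j y = 0 ↔ ∃ k, y = a k) :
    ∃ (l : ℕ) (_ : Fact l.Prime) (L : Submodule (AlgebraicClosure ℚ_[l])
        (Module.End (AlgebraicClosure ℚ_[l]) (Fin n → AlgebraicClosure ℚ_[l]))),
      0 < n ∧ H76Y.TM L ∧ H76Z.Cls (cl b) L ∧ Yo L = YS a ∧
      ∃ I : Fin 1 → Submodule (AlgebraicClosure ℚ_[l]) (Module.End (AlgebraicClosure ℚ_[l]) (Fin n → AlgebraicClosure ℚ_[l])),
        Fam L I := by
  obtain ⟨l, hl, h, hh, hgen⟩ := hg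
  let i : Ω →+* AlgebraicClosure ℚ_[l] :=
    (IsAlgClosed.lift (R := ℚ) (S := Ω) (M := AlgebraicClosure ℚ_[l])).toRingHom
  obtain ⟨H₀, U, V, x, -, hL⟩ := loc_any4 C b ha hroot l i
  refine ⟨l, hl, _, hL.pos, hL.ts, hL.cls, hL.yo, ?_⟩
  have hspl := C.hspl.map (i.comp j)
  have hne : Nonempty (Fin n) := ⟨⟨0, hL.pos⟩⟩
  obtain ⟨m', I, hF⟩ := Pool.Agent.H76T.exists_fam hL.ts.cmp.lie hL.ts.cmp.irr hL.ts.cmp.tr
  have h1 : m' = 1 := by
    refine fam_one (Gs := img (AlgebraicClosure ℚ_[l]) (ρ l) ⊤) hL.pos hL.UV hL.VU hL.ts.cmp.irr hL.ts.cmp.tr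
      (fun k hk => ⟨(hL.par k hk).1, (hL.par k hk).2.1, (hL.par k hk).2.2.2⟩)
      (fun Z hZ => hspl.corner b Z (C.commt l ⊤ inferInstance Z hZ)) hh ?_ hF
    rintro _ ⟨g, -, rfl⟩
    exact hgen g
  subst h1
  exact ⟨I, hF⟩

/-- The components of rank `2 ^ k` with a form. -/
theorem odd_two4 (hg : Gen1 ρ) (b : Fin m) (hb : cl b = .s) {n : ℕ} {a : Fin n → Ω} (ha : Function.Injective a)
    (hroot : ∀ y : Ω, (F b).eval₂ j y = 0 ↔ ∃ k, y = a k) {k : ℕ} (hk : n = 2 ^ k)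
    (hk' : ¬ (5 ≤ k ∧ (k % 4 = 1 ∨ k % 4 = 2))) :
    ∃ bar' : Equiv.Perm (Fin n), (∀ k, bar' (bar' k) = k) ∧ (∀ k, bar' k ≠ k) ∧
      (∀ f : Fin n → ℚ, (∀ k, f (bar' k) = -f k) → f ∈ YS a) ∧ ∀ f ∈ YS a, ∀ k, f (bar' k) = -f k := by
  obtain ⟨l, hl, L, hn, hT, hcl, hY, I, hF⟩ := simple4 C hg b ha hroot
  have hne : Nonempty (Fin n) := ⟨⟨0, hn⟩⟩
  obtain ⟨J, hTS⟩ := H76Y.ts_of_sy hT (hcl.1 hb)
  rw [← hY]
  refine exists_odd hTS ?_
  rcases Cmp.simple hTS.cmp hF with h2 | ⟨n', hn', hn2', hn3', -⟩ | ⟨k', hk1, hk2, hk3, -⟩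
  · exact h2
  · exfalso
    rw [Module.finrank_fintype_fun_eq_card, Fintype.card_fin, hk] at hn3'
    have h3 : k = n' := Nat.pow_right_injective le_rfl hn3'
    subst h3
    exact hk' ⟨hn', hn2'⟩
  · exfalso
    rw [Module.finrank_fintype_fun_eq_card, Fintype.card_fin, hk] at hk3
    exact Pool.Agent.H49M.R3_binom_pow (by omega) hk3.symm

/-- The component theorem of the fourth version, with a real place and with one class of cocharacters. -/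
theorem compG4 (part : ∀ b (k : ℕ) (c : Ω → Fin k) (A : Fin k → ℕ), 2 ≤ k →
      PartN D j (cl b = .s) (e b) (e (bar b)) (F b) q R c A → (e b).rank ≠ ∏ x, A x)
    (two : ∀ b (k : ℕ), 3 ≤ k → (e b).rank = 2 ^ k →
      (cl b = .s → 4 ≤ k → Gen1 ρ ∧ ¬ (5 ≤ k ∧ (k % 4 = 1 ∨ k % 4 = 2))) ∧ cl b ≠ .o ∧
        (cl b = .n → 4 ≤ k → Odd k))
    (binom : ∀ b (k : ℕ), (cl b = .s → 3 ≤ k ∧ Odd k) → (cl b = .o → 4 ≤ k ∧ Even k) →
      cl b ≠ .n → (e b).rank = k.centralBinom →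
        ∃ (c : Ω ≃+* Ω) (T₀ : Finset Ω) (N' : Set ℕ), Real3 D ρ σ q bar e F j c T₀ N') (b : Fin m) :
    ∃ a : Fin (e b).rank → Ω, Function.Injective a ∧
      (∀ y : Ω, (F b).eval₂ j y = 0 ↔ ∃ k, y = a k) ∧
      ∀ (K : Type) [Field K] [CharZero K] [IsAlgClosed K]
        (L : Submodule K (Module.End K (Fin (e b).rank → K))), TM L → Yo L = YS a →
        (cl b = .s → ∀ J : Matrix (Fin (e b).rank) (Fin (e b).rank) K, Jᵀ = -J → IsUnit J.det →
          (∀ X ∈ L, adjE J X = -X) → ∀ X, adjE J X = -X → X ∈ L) ∧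
        (cl b = .o → ∀ J : Matrix (Fin (e b).rank) (Fin (e b).rank) K, Jᵀ = J → IsUnit J.det →
          (∀ X ∈ L, adjE J X = -X) → ∀ X, adjE J X = -X → X ∈ L) ∧
        (cl b = .n → NsL L → ∀ X : Module.End K (Fin (e b).rank → K),
          LinearMap.trace K (Fin (e b).rank → K) X = 0 → X ∈ L) := by
  obtain ⟨a, ha, hroot⟩ := C.enum b
  obtain ⟨hn, hev⟩ := C.rank_even b
  obtain ⟨-, ha0, -, -⟩ := C.w9_prod b ha hroot
  have hsep : ∀ k l, k ≠ l → ∃ g ∈ YS a, g k ≠ g l :=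
    YS_sep ha0 fun k l n hn h => ha (C.tor b ((hroot _).2 ⟨k, rfl⟩) ((hroot _).2 ⟨l, rfl⟩) hn h)
  have hs : ∀ g ∈ YS a, ∑ k, g k = 0 := fun g hg => hg.1
  obtain ⟨FF, hFF, horth, hsum, hperm, hone⟩ := H76Z.exists_blocksN hn hs (cl b) fun h8 h9 =>
    (two b 3 le_rfl (by rw [h9]; norm_num)).2.1 h8
  have : Nonempty (Fin (e b).rank) := ⟨⟨0, hn⟩⟩
  have hF1 : FF.card = 1 := by
    rcases Nat.lt_or_ge FF.card 2 with h5 | h5
    · interval_cases h6 : FF.card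
      · exfalso
        have hcard : (e b).rank = 1 := by
          have h7 := prod_nz hs hsep (fun P hP => (hFF P hP).1) horth hsum
          rw [Finset.card_eq_zero.1 h6, Finset.prod_empty, Fintype.card_fin] at h7
          exact h7
        rw [hcard] at hev
        exact absurd hev (by decide)
      · rfl
    · exfalso
      obtain ⟨c, A, h7, h8⟩ := C.partd b ha hroot hn hFF horth hsum hperm (by omega)
      exact part b FF.card c A h5 h7 h8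
  have hB := hone hF1
  refine ⟨a, ha, hroot, fun K _ _ _ L hT hY => ⟨fun hb J hJ hJd hsk X hX => ?_,
    fun hb J hJ hJd hsk X hX => ?_, fun hb hns X hX => ?_⟩⟩
  · have hTS : TS L J := ⟨⟨hT.cmp.lie, hT.cmp.irr, hJ, hJd, hsk, hT.cmp.gen⟩, hT.diag, hT.sep⟩
    by_cases htwo : ∃ k : ℕ, 4 ≤ k ∧ (e b).rank = 2 ^ k
    · obtain ⟨k, hk4, hk⟩ := htwo
      obtain ⟨hg, hk'⟩ := (two b k (by omega) hk).1 hb hk4
      obtain ⟨bar', hbb, hbne, hodd, hsk'⟩ := odd_two4 C hg b hb ha hroot hk hk'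
      exact full_odd hTS hY hbb hbne hodd hsk' hX
    by_cases hbin : ∃ k : ℕ, 3 ≤ k ∧ Odd k ∧ (e b).rank = k.centralBinom
    · obtain ⟨k, hk, hk2, hk3⟩ := hbin
      obtain ⟨c, T₀, N', hr⟩ := binom b k (fun _ => ⟨hk, hk2⟩) (fun h => by rw [hb] at h; cases h)
        (by rw [hb]; decide) hk3
      exact core4_binomS C hr b (by rw [hb]; decide) ha hroot hB ⟨k, hk, hk3⟩ hTS hY hX
    · refine full_of_one hTS hY hB (fun k hk => ?_) (fun k hk hk2 h => hbin ⟨k, hk, hk2, ?_⟩) hX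
      · rw [Fintype.card_fin]
        exact fun h => htwo ⟨k, hk, h⟩
      · rwa [Fintype.card_fin] at h
  · by_cases hbin : ∃ k : ℕ, 4 ≤ k ∧ Even k ∧ (e b).rank = k.centralBinom
    · obtain ⟨k, hk, hk2, hk3⟩ := hbin
      obtain ⟨c, T₀, N', hr⟩ := binom b k (fun h => by rw [hb] at h; cases h) (fun _ => ⟨hk, hk2⟩)
        (by rw [hb]; decide) hk3
      exact core4_binomO C hr b (by rw [hb]; decide) ha hroot hB ⟨k, by omega, hk3⟩ hT hJ hJd hsk hY hX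
    · refine H76Y.full_of_oneO hT hJ hJd hsk hY hB (fun k hk => ?_) (fun k hk hk2 h => hbin ⟨k, hk, hk2, ?_⟩) hX
      · rw [Fintype.card_fin]
        exact fun h => (two b k hk h).2.1 hb
      · rwa [Fintype.card_fin] at h
  · refine H76Y.one_nsX hT hns hY hB (fun k hk hk2 => ?_) X hX
    rw [Fintype.card_fin]
    exact fun h => (Nat.not_even_iff_odd.2 ((two b k (by omega) h).2.2 hb hk)) hk2


end Pool.Agent.H76W
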