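import Pool.Agent.Lib.H76Y.C3
import Pool.Agent.Lib.H76Y.E1
import Pool.Agent.Lib.H76Q.B1
import Pool.Agent.Lib.H76Q.B2

/-!
# A square zero element which is fixed by a semilinear automorphism fixes a block
-/

set_option autoImplicit false
set_option linter.unusedSectionVars false
namespace Pool.Agent.H76W
open Module Matrix Pool.Agent.H53Toric Pool.Agent.H76P Pool.Agent.H76Q
open Pool.Agent.H76T (IsIdeal Fam)
open Pool.Agent.H76Y (ThetaN)

variable {κ : Type*} {K : Type*} [Field K] [CharZero K] [IsAlgClosed K] [Fintype κ] [DecidableEq κ] [Nonempty κ]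
  {L : Submodule K (Module.End K (κ → K))} {Y : Submodule ℚ (κ → ℚ)}

/-- The ideal of a fixed element is stable under the automorphism. -/
theorem fix_ideal {m : ℕ} {I : Fin m → Submodule K (Module.End K (κ → K))} (hF : Fam L I) {j : Fin m}
    {X : Module.End K (κ → K)} (hX : X ∈ I j) (hX0 : X ≠ 0)
    {θ : Module.End K (κ → K) ≃+* Module.End K (κ → K)} {τ : K ≃+* K}
    (hsmul : ∀ (c : K) Z, θ (c • Z) = τ c • θ Z) (hmem : ∀ Z ∈ L, θ Z ∈ L) (hθX : θ X = X)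
    {Z : Module.End K (κ → K)} (hZ : Z ∈ I j) : θ Z ∈ I j := by
  let J : Submodule K (Module.End K (κ → K)) :=
    { carrier := {Z | Z ∈ I j ∧ θ Z ∈ I j}
      add_mem' := fun {a b} ha hb => ⟨(I j).add_mem ha.1 hb.1, by
        rw [map_add]
        exact (I j).add_mem ha.2 hb.2⟩
      zero_mem' := ⟨(I j).zero_mem, by
        rw [map_zero]
        exact (I j).zero_mem⟩
      smul_mem' := fun c a ha => ⟨(I j).smul_mem c ha.1, by
        rw [hsmul]
        exact (I j).smul_mem _ ha.2⟩ }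
  have hJ : IsIdeal L J := by
    refine ⟨fun a ha => (hF.ideal j).1 ha.1, fun a ha b hb => ⟨(hF.ideal j).2 a ha b hb.1, ?_⟩⟩
    rw [map_sub, map_mul, map_mul]
    exact (hF.ideal j).2 _ (hmem a ha) _ hb.2
  rcases hF.min j J hJ (fun a ha => ha.1) with h1 | h1
  · exfalso
    apply hX0
    have h2 : X ∈ J := ⟨hX, by rw [hθX]; exact hX⟩
    rw [h1] at h2
    exact (Submodule.mem_bot K).1 h2
  · have h2 : Z ∈ J := by rw [h1]; exact hZ
    exact h2.2

/-- PROOF. `X ∈ I j` (`Fam.one`).  There is `P ∈ FF` with `InP P (I j)`, and `θ⁻¹ (I j) ⊆ I j`, so `InP (g P) (I j)`, so `g P = P`. -/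
theorem fix_block {m : ℕ} {I : Fin m → Submodule K (Module.End K (κ → K))} (hF : Fam L I) (hirr : Irr L)
    (htr : ∀ X ∈ L, LinearMap.trace K (κ → K) X = 0) (hs : ∀ f ∈ Y, ∑ k, f k = 0)
    (hdiag : ∀ j, ∃ f ∈ Y, f ≠ 0 ∧ dq f ∈ I j)
    {FF : Finset (Module.End ℚ Y)} (hFF : ∀ P ∈ FF, Sp P ∧ Comp L P)
    (horth : ∀ P ∈ FF, ∀ P' ∈ FF, P ≠ P' → P * P' = 0) (hsum : ∑ P ∈ FF, P = 1)
    {X : Module.End K (κ → K)} (hX : X ∈ L) (hX0 : X ≠ 0) (hXX : X * X = 0)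
    {θ : Module.End K (κ → K) ≃+* Module.End K (κ → K)} {τ : K ≃+* K} {σ : Equiv.Perm κ}
    (hθ : ThetaN L θ τ σ) (hθX : θ X = X) (hperm : ∀ f ∈ Y, f ∘ σ ∈ Y)
    (g : Module.End ℚ Y → Module.End ℚ Y) (hg : ∀ P ∈ FF, g P ∈ FF ∧ MvP σ P (g P)) :
    ∃ P ∈ FF, g P = P := by
  classical
  obtain ⟨j, hj⟩ := hF.one hirr htr hX hX0 (a := 0) (b := 0) (by rw [hXX, zero_smul, zero_smul, add_zero, add_zero])
  obtain ⟨f₀, hf₀Y, hf₀, hf₀I⟩ := hdiag j
  have hiff : ∀ P ∈ FF, FunP P f₀ ↔ P ⟨f₀, hf₀Y⟩ = ⟨f₀, hf₀Y⟩ := fun P hP =>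
    FunP_iff (hFF P hP).1 hs ⟨f₀, hf₀Y⟩
  have hex : ∃ P ∈ FF, InP P (I j) := by
    by_contra hcon
    push Not at hcon
    have h1 : ∀ P ∈ FF, P ⟨f₀, hf₀Y⟩ = 0 := by
      intro P hP
      rcases (hFF P hP).2 m I hF j with h2 | h2
      · exact absurd h2 (hcon P hP)
      · have h3 := (FunP_iff (hFF P hP).1.compl hs ⟨f₀, hf₀Y⟩).1 (h2 f₀ hf₀Y hf₀I)
        rw [LinearMap.sub_apply, Module.End.one_apply, sub_eq_self] at h3
        exact h3
    have h2 : (⟨f₀, hf₀Y⟩ : Y) = 0 := by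
      have h3 : (∑ P ∈ FF, P) (⟨f₀, hf₀Y⟩ : Y) = ⟨f₀, hf₀Y⟩ := by rw [hsum, Module.End.one_apply]
      rw [← h3, LinearMap.sum_apply]
      exact Finset.sum_eq_zero h1
    exact hf₀ (congrArg Subtype.val h2)
  obtain ⟨P, hP, hPI⟩ := hex
  refine ⟨P, hP, ?_⟩
  have hgI : InP (g P) (I j) := by
    intro f hf hfI k k' hkk
    have h1 : θ.symm (dq f) ∈ I j := by
      refine fix_ideal (τ := τ.symm) hF hj hX0 (fun c Z => ?_) (fun Z hZ => ?_) ?_ hfI
      · apply θ.injective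
        rw [RingEquiv.apply_symm_apply, hθ.smul, RingEquiv.apply_symm_apply, RingEquiv.apply_symm_apply]
      · rw [← hθ.mem, RingEquiv.apply_symm_apply]
        exact hZ
      · rw [RingEquiv.symm_apply_eq]
        exact hθX.symm
    have h2 : θ.symm (dq f) = dq (f ∘ σ) := by
      rw [RingEquiv.symm_apply_eq]
      show _ = θ (dg fun k => ((f ∘ σ) k : K))
      rw [hθ.diag]
      show dg _ = dg _
      congr 1
      funext k
      simp
    rw [h2] at h1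
    have h4 := hPI (f ∘ σ) (hperm f hf) h1 (σ.symm k) (σ.symm k') (((hg P hP).2.1 _ _).2 (by
      rwa [Equiv.apply_symm_apply, Equiv.apply_symm_apply]))
    rwa [Function.comp_apply, Function.comp_apply, Equiv.apply_symm_apply, Equiv.apply_symm_apply] at h4
  by_contra hne
  have h1 := (hiff P hP).1 (hPI f₀ hf₀Y hf₀I)
  have h2 := (hiff (g P) (hg P hP).1).1 (hgI f₀ hf₀Y hf₀I)
  have h3 := congrArg (fun T : Module.End ℚ Y => T ⟨f₀, hf₀Y⟩) (horth (g P) (hg P hP).1 P hP hne)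
  simp only [Module.End.mul_apply, LinearMap.zero_apply] at h3
  rw [h1, h2] at h3
  exact hf₀ (congrArg Subtype.val h3)

end Pool.Agent.H76W
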